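import Pool.Agent.Y546.WQ.Stm

set_option autoImplicit false

/-!
Project WQ (helper546): basic lemmas on the action of the Galois group on valuations and embeddings.
-/

namespace Pool.Agent.Y125.WQ

open NumberField IsDedekindDomain HeightOneSpectrum
open Pool.Agent.Y546.WQ
open WithZero (exp)

variable {p : ℕ} [Fact p.Prime] {C : Type} [Field C] [NumberField C]

lemma rs_coe (c : Cyc p C) (t : (ZMod p)ˣ) (y : 𝓞 C) : ((rs c t y : 𝓞 C) : C) = c.σ t (y : C) :=
  rfl

lemma mem_act (c : Cyc p C) (t : (ZMod p)ˣ) (P : HeightOneSpectrum (𝓞 C)) (y : 𝓞 C) :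
    y ∈ (act c t P).asIdeal ↔ rs c t y ∈ P.asIdeal := Iff.rfl

lemma act_pow (c : Cyc p C) (t : (ZMod p)ˣ) (P : HeightOneSpectrum (𝓞 C)) (n : ℕ) (y : 𝓞 C) :
    y ∈ (act c t P).asIdeal ^ n ↔ rs c t y ∈ P.asIdeal ^ n := by
  have h1 : (act c t P).asIdeal = P.asIdeal.map (rs c t).symm := by
    rw [Ideal.map_symm]; rfl
  rw [h1, ← Ideal.map_pow, Ideal.map_symm, Ideal.mem_comap]

/-- an element of `ℤᵐ⁰` of the form `exp (-n)` is determined by its lower bounds -/
lemma val_ext {a b : WithZero (Multiplicative ℤ)} (ha : a ≤ 1) (hb : b ≤ 1)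
    (h : ∀ n : ℕ, a ≤ exp (-(n : ℤ)) ↔ b ≤ exp (-(n : ℤ))) : a = b := by
  have key : ∀ {a b : WithZero (Multiplicative ℤ)}, a ≤ 1 → b ≤ 1 →
      (∀ n : ℕ, a ≤ exp (-(n : ℤ)) ↔ b ≤ exp (-(n : ℤ))) → a ≤ b := by
    intro a b ha hb h
    by_cases hb0 : b = 0
    · subst hb0
      by_contra hlt
      have ha0 : a ≠ 0 := fun h0 => hlt (by rw [h0])
      obtain ⟨k, rfl⟩ : ∃ k : ℤ, a = exp k := ⟨WithZero.log a, (WithZero.exp_log ha0).symm⟩
      have h1 := (h (k.natAbs + 1)).mpr zero_le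
      rw [WithZero.exp_le_exp] at h1
      have := Int.natCast_natAbs k
      push_cast at h1
      have h3 := neg_abs_le k
      linarith
    · obtain ⟨k, rfl⟩ : ∃ k : ℤ, b = exp k := ⟨WithZero.log b, (WithZero.exp_log hb0).symm⟩
      have hk : k ≤ 0 := by
        rw [← WithZero.exp_zero, WithZero.exp_le_exp] at hb
        exact hb
      obtain ⟨n, rfl⟩ : ∃ n : ℕ, k = -(n : ℤ) := ⟨k.natAbs, by omega⟩
      exact (h n).mpr le_rfl
  exact le_antisymm (key ha hb h) (key hb ha fun n => (h n).symm)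

lemma intVal_act (c : Cyc p C) (t : (ZMod p)ˣ) (P : HeightOneSpectrum (𝓞 C)) (y : 𝓞 C) :
    (act c t P).intValuation y = P.intValuation (rs c t y) := by
  apply val_ext (intValuation_le_one _ _) (intValuation_le_one _ _)
  intro n
  rw [intValuation_le_pow_iff_mem, intValuation_le_pow_iff_mem, act_pow]

/-- `v_(σ⁻¹ P)(y) = v_P(σ y)` -/
lemma val_act (c : Cyc p C) (t : (ZMod p)ˣ) (P : HeightOneSpectrum (𝓞 C)) (y : C) :
    (act c t P).valuation C y = P.valuation C (c.σ t y) := by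
  obtain ⟨a, b, hb, rfl⟩ := IsFractionRing.div_surjective (A := 𝓞 C) y
  rw [map_div₀, map_div₀, map_div₀]
  have h1 : ∀ a : 𝓞 C, (act c t P).valuation C (algebraMap (𝓞 C) C a) =
      P.valuation C (c.σ t (algebraMap (𝓞 C) C a)) := by
    intro a
    have h2 : c.σ t (algebraMap (𝓞 C) C a) = algebraMap (𝓞 C) C (rs c t a) := rfl
    rw [h2, valuation_of_algebraMap, valuation_of_algebraMap, intVal_act]
  rw [h1, h1]

lemma act_act (c : Cyc p C) (s t : (ZMod p)ˣ) (P : HeightOneSpectrum (𝓞 C)) :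
    act c s (act c t P) = act c (t * s) P := by
  ext y
  rw [mem_act, mem_act, mem_act]
  have : rs c t (rs c s y) = rs c (t * s) y := by
    apply RingOfIntegers.coe_injective
    rw [← RingOfIntegers.coe_eq_algebraMap, ← RingOfIntegers.coe_eq_algebraMap]
    rw [rs_coe, rs_coe, rs_coe, map_mul]
    rfl
  rw [this]

lemma act_one (c : Cyc p C) (P : HeightOneSpectrum (𝓞 C)) : act c 1 P = P := by
  ext y
  rw [mem_act]
  have : rs c 1 y = y := by
    apply RingOfIntegers.coe_injective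
    rw [← RingOfIntegers.coe_eq_algebraMap, ← RingOfIntegers.coe_eq_algebraMap]
    rw [rs_coe, map_one]
    rfl
  rw [this]

lemma z_ne (c : Cyc p C) : c.z ≠ 0 := c.prim.ne_zero (Fact.out : p.Prime).ne_zero

omit [Fact p.Prime] in
/-- two homomorphisms which agree on `z` agree -/
lemma hom_ext (c : Cyc p C) {F : Type*} [Field F] [CharZero F] {f g : C →+* F}
    (h : f c.z = g c.z) : f = g := by
  ext y
  have h1 : ∀ y : 𝓞 C, f (y : C) = g (y : C) := by
    intro y
    obtain ⟨P, hP⟩ := c.gen y y.isIntegral_coe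
    rw [hP, Polynomial.aeval_def, Polynomial.hom_eval₂, Polynomial.hom_eval₂, h]
    congr 1
    ext n
    simp
  obtain ⟨a, b, hb, rfl⟩ := IsFractionRing.div_surjective (A := 𝓞 C) y
  rw [map_div₀, map_div₀]
  have h2 := h1 a
  have h3 := h1 b
  rw [RingOfIntegers.coe_eq_algebraMap] at h2 h3
  rw [h2, h3]

/-- the composition of two embeddings with an automorphism -/
lemma exists_sigma (c : Cyc p C) {F : Type*} [Field F] [CharZero F] (f g : C →+* F) :
    ∃ s : (ZMod p)ˣ, g = f.comp (c.σ s : C →+* C) := by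
  have hp : p.Prime := Fact.out
  have hf : IsPrimitiveRoot (f c.z) p := c.prim.map_of_injective f.injective
  have hg : IsPrimitiveRoot (g c.z) p := c.prim.map_of_injective g.injective
  obtain ⟨i, hi, h1⟩ := hf.eq_pow_of_pow_eq_one hg.pow_eq_one
  have hcop : i.Coprime p := by
    rw [← h1] at hg
    exact (hf.pow_iff_coprime hp.pos i).mp hg
  refine ⟨ZMod.unitOfCoprime i hcop, ?_⟩
  apply hom_ext c
  rw [RingHom.comp_apply]
  have h2 : ((c.σ (ZMod.unitOfCoprime i hcop) : C →+* C)) c.z = c.z ^ i := by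
    show c.σ (ZMod.unitOfCoprime i hcop) c.z = _
    rw [c.σ_z, ZMod.coe_unitOfCoprime, ZMod.val_natCast, Nat.mod_eq_of_lt hi]
  rw [h2, map_pow, h1]

/-- complex conjugation -/
lemma conj_eq (c : Cyc p C) (φ : C →+* ℂ) (y : C) :
    (starRingEnd ℂ) (φ y) = φ (c.σ (-1) y) := by
  have hp : p.Prime := Fact.out
  have h1 : ((starRingEnd ℂ).comp φ) = φ.comp (c.σ (-1) : C →+* C) := by
    apply hom_ext c
    have h3 : φ c.z ≠ 0 := by
      rw [Ne, map_eq_zero]; exact z_ne c
    have h2 : (starRingEnd ℂ) (φ c.z) * φ c.z = 1 := by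
      have h4 : ‖φ c.z‖ = 1 := by
        have h5 : (φ c.z) ^ p = 1 := by rw [← map_pow, c.prim.pow_eq_one, map_one]
        exact Complex.norm_eq_one_of_pow_eq_one h5 hp.ne_zero
      rw [mul_comm, Complex.mul_conj, Complex.normSq_eq_norm_sq, h4]
      simp
    have h6 : φ (c.σ (-1) c.z) * φ c.z = 1 := by
      rw [← map_mul, c.σ_z]
      have h7 : ((-1 : (ZMod p)ˣ) : ZMod p).val + 1 = p := by
        rw [Units.val_neg, Units.val_one]
        obtain ⟨k, hk⟩ := Nat.exists_eq_succ_of_ne_zero hp.ne_zero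
        subst hk
        rw [ZMod.val_neg_one]
      rw [← pow_succ, h7, c.prim.pow_eq_one, map_one]
    have h8 := h2.trans h6.symm
    exact mul_right_cancel₀ h3 h8
  exact congrArg (fun f => f y) h1

end Pool.Agent.Y125.WQ
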