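import Pool.Agent.Y125.WQ.Base

set_option autoImplicit false

/-!
Project WQ (helper546), job WQ-JAC: Stickelberger's theorem for Jacobi sums
(`S_JN → S_BR → S_STAB → S_JAC`).
-/

namespace Pool.Agent.Y125.WQ

open NumberField IsDedekindDomain HeightOneSpectrum
open Pool.Agent.Y546.WQ
open WithZero (exp)

section chars

variable {E : Type} [Field E] [Fintype E]

omit [Fintype E] in
/-- a character of order `p` with values in a field with an embedding of `C` comes from `C` -/
lemma lift_char {C K : Type*} [Field C] [Field K] (τ : C →+* K) {p : ℕ} (hp : p.Prime) {z : C}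
    (hz : IsPrimitiveRoot z p) (T : MulChar E K) (hT : orderOf T = p) :
    ∃ χ : MulChar E C, χ.ringHomComp τ = T ∧ ∀ x : E, x ≠ 0 → ∃ k : ℕ, χ x = z ^ k := by
  have : NeZero p := ⟨hp.ne_zero⟩
  have h1 : ∀ x : E, ∃ y : C, τ y = T x ∧ (x ≠ 0 → ∃ k : ℕ, y = z ^ k) := by
    intro x
    by_cases hx : x = 0
    · refine ⟨0, ?_, fun h => absurd hx h⟩
      rw [map_zero, T.map_nonunit]
      rw [hx]; exact not_isUnit_zero
    · have h2 : (T x) ^ p = 1 := by
        rw [← MulChar.pow_apply' T hp.ne_zero, ← hT, pow_orderOf_eq_one]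
        exact MulChar.one_apply (isUnit_iff_ne_zero.mpr hx)
      obtain ⟨i, _, hi⟩ := (hz.map_of_injective τ.injective).eq_pow_of_pow_eq_one h2
      exact ⟨z ^ i, by rw [map_pow, hi], fun _ => ⟨i, rfl⟩⟩
  choose f hf hfk using h1
  let χ : MulChar E C :=
    { toFun := f
      map_one' := τ.injective (by rw [hf, map_one, map_one])
      map_mul' := fun x y => τ.injective (by rw [hf, map_mul, map_mul, hf, hf])
      map_nonunit' := fun x hx => τ.injective (by rw [hf, map_zero, T.map_nonunit hx]) }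
  refine ⟨χ, ?_, hfk⟩
  ext x
  exact hf x

/-- absolute value of a Jacobi sum -/
lemma arch_jacobi {χ : MulChar E ℂ} (h1 : χ ≠ 1) (h2 : χ * χ ≠ 1) :
    ‖jacobiSum χ χ‖ ^ 2 = Fintype.card E := by
  have h3 : χ.ringHomComp (starRingEnd ℂ) = χ⁻¹ := by
    ext x
    rw [MulChar.ringHomComp_apply, MulChar.inv_apply_eq_inv']
    have h4 : ‖χ x‖ = 1 := by
      have h5 : (χ x) ^ (orderOf χ) = 1 := by
        rw [← MulChar.pow_apply' χ (orderOf_pos χ).ne', pow_orderOf_eq_one]
        exact MulChar.one_apply x.isUnit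
      exact Complex.norm_eq_one_of_pow_eq_one h5 (orderOf_pos χ).ne'
    rw [Complex.inv_def, Complex.normSq_eq_norm_sq, h4]
    simp
  have h4 : (starRingEnd ℂ) (jacobiSum χ χ) = jacobiSum χ⁻¹ χ⁻¹ := by
    rw [← h3, jacobiSum_ringHomComp]
  have hchar : ringChar ℂ ≠ ringChar E := by
    rw [ringChar.eq_zero]
    intro h
    exact CharP.char_ne_zero_of_finite E (ringChar E) h.symm
  have h5 := jacobiSum_mul_jacobiSum_inv hchar h1 h1 h2
  rw [← h4, Complex.mul_conj, Complex.normSq_eq_norm_sq] at h5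
  exact_mod_cast h5

omit [Fintype E] in
lemma order_ne {K : Type*} [Field K] {T : MulChar E K} {p : ℕ} (hp : p.Prime) (hp2 : p ≠ 2)
    (hT : orderOf T = p) : T ≠ 1 ∧ T * T ≠ 1 := by
  constructor
  · intro h
    rw [h, orderOf_one] at hT
    exact hp.one_lt.ne hT
  · intro h
    rw [← pow_two] at h
    have h1 := orderOf_dvd_of_pow_eq_one h
    rw [hT] at h1
    exact hp2 ((Nat.prime_dvd_prime_iff_eq hp Nat.prime_two).mp h1)

end chars

section

variable {p : ℕ} [Fact p.Prime] {C : Type} [Field C] [NumberField C]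

lemma val_int_le (P : HeightOneSpectrum (𝓞 C)) {y : C} (hy : IsIntegral ℤ y) :
    P.valuation C y ≤ 1 := by
  have := P.valuation_le_one (K := C) (⟨y, hy⟩ : 𝓞 C)
  exact this

lemma val_nat_eq_one (P : HeightOneSpectrum (𝓞 C)) {q : ℕ} (hq : ((q : ℕ) : 𝓞 C) ∉ P.asIdeal) :
    P.valuation C ((q : ℕ) : C) = 1 := by
  have h1 : ((q : ℕ) : C) = algebraMap (𝓞 C) C ((q : ℕ) : 𝓞 C) := by simp
  rw [h1, valuation_of_algebraMap]
  exact intValuation_eq_one_iff.mpr hq

/-- the number of elements of `half p` in a coset of a cyclic subgroup -/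
lemma count_coset (t g : (ZMod p)ˣ) :
    ((half p).filter fun u => t * u⁻¹ ∈ Subgroup.zpowers g).card =
      ((Finset.range (orderOf g)).filter fun s =>
        p < 2 * (((t : ZMod p).val * (g : ZMod p).val ^ s) % p)).card := by
  classical
  have hval : ∀ s : ℕ, ((t * g ^ s : (ZMod p)ˣ) : ZMod p).val =
      ((t : ZMod p).val * (g : ZMod p).val ^ s) % p := by
    intro s
    have h1 : ((t * g ^ s : (ZMod p)ˣ) : ZMod p) =
        (((t : ZMod p).val * (g : ZMod p).val ^ s : ℕ) : ZMod p) := by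
      push_cast
      rw [ZMod.natCast_zmod_val, ZMod.natCast_zmod_val]
    rw [h1, ZMod.val_natCast]
  symm
  refine Finset.card_bij (fun s _ => t * g ^ s) ?_ ?_ ?_
  · intro s hs
    simp only [Finset.mem_filter, Finset.mem_range] at hs
    simp only [half, Finset.mem_filter, Finset.mem_univ, true_and]
    refine ⟨?_, ?_⟩
    · rw [hval]; exact hs.2
    · rw [mul_inv, mul_inv_cancel_left]
      exact Subgroup.inv_mem _ (Subgroup.npow_mem_zpowers g s)
  · intro s hs s' hs' h
    simp only [Finset.mem_filter, Finset.mem_range] at hs hs'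
    have h2 := mul_left_cancel h
    exact pow_injOn_Iio_orderOf hs.1 hs'.1 h2
  · intro u hu
    simp only [half, Finset.mem_filter, Finset.mem_univ, true_and] at hu
    obtain ⟨hu1, hu2⟩ := hu
    have h3 : t⁻¹ * u ∈ Subgroup.zpowers g := by
      have := Subgroup.inv_mem _ hu2
      rwa [mul_inv, inv_inv, ] at this
    rw [← mem_powers_iff_mem_zpowers, Submonoid.mem_powers_iff] at h3
    obtain ⟨s, hs⟩ := h3
    refine ⟨s % orderOf g, ?_, ?_⟩
    · simp only [Finset.mem_filter, Finset.mem_range]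
      refine ⟨Nat.mod_lt _ (orderOf_pos g), ?_⟩
      rw [← hval, pow_mod_orderOf, hs, mul_inv_cancel_left]
      exact hu1
    · show t * g ^ (s % orderOf g) = u
      rw [pow_mod_orderOf, hs, mul_inv_cancel_left]

end

open Classical in
/-- the theorem, with the residue field as a separate type -/
lemma jac_core (hJN : S_JN) (hBR : S_BR) (hST : S_STAB) {p : ℕ} [Fact p.Prime] (hp2 : p ≠ 2)
    {C : Type} [Field C] [NumberField C] (c : Cyc p C) (Q : HeightOneSpectrum (𝓞 C))
    (hpQ : ((p : ℕ) : 𝓞 C) ∉ Q.asIdeal) (E : Type) [Field E] [Fintype E] (q : ℕ)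
    [Fact q.Prime] [CharP E q] (hqQ : ((q : ℕ) : 𝓞 C) ∈ Q.asIdeal)
    (hcardE : Nat.card (𝓞 C ⧸ Q.asIdeal) = Fintype.card E) :
    ∃ J : C, J ≠ 0 ∧ (∃ r : ℝ, 0 < r ∧ ∀ φ : C →+* ℂ, ‖φ J‖ ^ 2 = r) ∧
      ∀ P : HeightOneSpectrum (𝓞 C), P.valuation C J =
        WithZero.exp (-(((half p).filter fun t => act c t⁻¹ P = Q).card : ℤ)) := by
  have hp : p.Prime := Fact.out
  have hqprime : q.Prime := Fact.out
  have hqp : q ≠ p := by
    intro h; rw [h] at hqQ; exact hpQ hqQ
  have hcop : q.Coprime p := (Nat.coprime_primes hqprime hp).mpr hqp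
  set g : (ZMod p)ˣ := ZMod.unitOfCoprime q hcop with hg
  have hgq : (g : ZMod p) = q := ZMod.coe_unitOfCoprime q hcop
  obtain ⟨hstabQ, hcardQ, htransQ⟩ := hST p C c Q q hqprime hqQ g hgq
  set F := orderOf g with hF
  have hFpos : 0 < F := orderOf_pos g
  have hcard : Fintype.card E = q ^ F := by rw [← hcardE]; exact hcardQ
  -- an embedding with prime Q
  obtain ⟨τ, hτ⟩ : ∃ τ : C →+* PadicAlgCl q, ∀ x : 𝓞 C, x ∈ Q.asIdeal ↔ ‖τ x‖ < 1 := by
    have hne : Nonempty (C →ₐ[ℚ] PadicAlgCl q) := ⟨IsAlgClosed.lift⟩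
    obtain ⟨τ₀⟩ := hne
    obtain ⟨P₀, hqP₀, hP₀, -⟩ := hBR p C c q hqp (τ₀ : C →+* PadicAlgCl q)
    obtain ⟨-, -, htr⟩ := hST p C c P₀ q hqprime hqP₀ g hgq
    obtain ⟨t, ht⟩ := htr Q hqQ
    refine ⟨(τ₀ : C →+* PadicAlgCl q).comp (c.σ t : C →+* C), fun x => ?_⟩
    rw [← ht, mem_act, hP₀]
    rfl
  have hpdvd : p ∣ Fintype.card E - 1 := by
    rw [hcard]
    have h1 : ((q ^ F : ℕ) : ZMod p) = 1 := by
      have h2 : ((g ^ F : (ZMod p)ˣ) : ZMod p) = 1 := by rw [hF, pow_orderOf_eq_one]; rfl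
      rw [Units.val_pow_eq_pow_val, hgq] at h2
      exact_mod_cast h2
    have h3 : ((q ^ F - 1 : ℕ) : ZMod p) = 0 := by
      rw [Nat.cast_sub (Nat.one_le_pow _ _ hqprime.pos), h1, Nat.cast_one, sub_self]
    exact (ZMod.natCast_eq_zero_iff _ _).mp h3
  obtain ⟨T, hTo, hTn⟩ := hJN q E p F hp hp2 hcard hpdvd hFpos
  obtain ⟨hT1, hT2⟩ := order_ne hp hp2 hTo
  obtain ⟨χ, hχT, hχk⟩ := lift_char τ hp c.prim T hTo
  have hχ1 : χ ≠ 1 := by
    intro h; apply hT1; rw [← hχT, h, MulChar.ringHomComp_one]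
  have hχ2 : χ * χ ≠ 1 := by
    intro h
    apply hT2
    rw [← hχT, ← MulChar.ringHomComp_mul, h, MulChar.ringHomComp_one]
  -- integrality
  have hχint : ∀ x : E, IsIntegral ℤ (χ x) := by
    intro x
    by_cases hx : x = 0
    · rw [hx, χ.map_nonunit not_isUnit_zero]; exact isIntegral_zero
    · obtain ⟨k, hk⟩ := hχk x hx
      rw [hk]
      exact (c.prim.isIntegral hp.pos).pow k
  have hJint : IsIntegral ℤ (jacobiSum χ χ) := by
    unfold jacobiSum
    exact IsIntegral.sum _ fun x _ => (hχint x).mul (hχint _)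
  have hJint' : IsIntegral ℤ (jacobiSum χ⁻¹ χ⁻¹) := by
    unfold jacobiSum
    refine IsIntegral.sum _ fun x _ => ?_
    rw [MulChar.inv_apply', MulChar.inv_apply']
    exact (hχint _).mul (hχint _)
  have hchar : ringChar C ≠ ringChar E := by
    rw [ringChar.eq_zero, ringChar.eq E q]
    exact hqprime.ne_zero.symm
  have hJJ := jacobiSum_mul_jacobiSum_inv hchar hχ1 hχ1 hχ2
  have hJ0 : jacobiSum χ χ ≠ 0 := by
    intro h
    rw [h, zero_mul] at hJJ
    have : (Fintype.card E : C) ≠ 0 := by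
      rw [hcard]; push_cast
      exact pow_ne_zero _ (by exact_mod_cast hqprime.ne_zero)
    exact this hJJ.symm
  refine ⟨jacobiSum χ χ, hJ0, ⟨Fintype.card E, by exact_mod_cast Fintype.card_pos, ?_⟩, ?_⟩
  · intro φ
    rw [← jacobiSum_ringHomComp]
    apply arch_jacobi
    · rw [MulChar.ringHomComp_ne_one_iff φ.injective]; exact hχ1
    · rw [← MulChar.ringHomComp_mul, MulChar.ringHomComp_ne_one_iff φ.injective]; exact hχ2
  · intro P
    by_cases hqP : ((q : ℕ) : 𝓞 C) ∈ P.asIdeal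
    · -- P above q
      obtain ⟨t, ht⟩ := htransQ P hqP
      set τt : C →+* PadicAlgCl q := τ.comp (c.σ t : C →+* C) with hτt
      obtain ⟨P₁, -, hP₁, hval⟩ := hBR p C c q hqp τt
      have hPP : P₁ = P := by
        ext x
        rw [hP₁, ← ht, mem_act, hτ]
        rfl
      rw [hPP] at hval
      -- the value of the embedding
      set b := (t : ZMod p).val with hb
      have hb0 : 0 < b := by
        rw [hb, ZMod.val_pos]; exact t.ne_zero
      have hbp : b < p := ZMod.val_lt _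
      have hcomp : χ.ringHomComp τt = T ^ b := by
        ext x
        rw [MulChar.ringHomComp_apply, MulChar.pow_apply' T hb0.ne', ← hχT,
          MulChar.ringHomComp_apply, ← map_pow]
        obtain ⟨k, hk⟩ := hχk x x.ne_zero
        rw [hτt, RingHom.comp_apply]
        congr 1
        show c.σ t (χ x) = χ x ^ b
        rw [hk, map_pow, c.σ_z, ← pow_mul, ← pow_mul, mul_comm]
      have hnorm : ‖τt (jacobiSum χ χ)‖ = ‖((q : ℕ) : PadicAlgCl q)‖ ^
          ((Finset.range F).filter fun s => p < 2 * ((b * q ^ s) % p)).card := by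
        rw [← jacobiSum_ringHomComp, hcomp]
        exact hTn b hb0 hbp
      -- the valuation
      have hv0 : P.valuation C (jacobiSum χ χ) ≠ 0 := by
        rw [Ne, map_eq_zero]; exact hJ0
      obtain ⟨k, hk⟩ : ∃ k : ℤ, P.valuation C (jacobiSum χ χ) = exp (-k) :=
        ⟨-(WithZero.log (P.valuation C (jacobiSum χ χ))), by rw [neg_neg, WithZero.exp_log hv0]⟩
      have h1 := hval _ k hk
      rw [hnorm, ← zpow_natCast] at h1
      have hq0 : 0 < ‖((q : ℕ) : PadicAlgCl q)‖ := by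
        rw [norm_pos_iff]; exact_mod_cast hqprime.ne_zero
      have hq1 : ‖((q : ℕ) : PadicAlgCl q)‖ < 1 := by
        have h2 : ((q : ℕ) : PadicAlgCl q) = algebraMap ℚ_[q] (PadicAlgCl q) ((q : ℕ) : ℚ_[q]) := by
          simp
        rw [h2]
        have h3 := PadicAlgCl.norm_extends q ((q : ℕ) : ℚ_[q])
        rw [h3]
        exact Padic.norm_p_lt_one
      have h2 := zpow_right_injective₀ hq0 hq1.ne h1
      rw [hk, ← h2]
      congr 2
      -- counting
      have h3 : ((half p).filter fun u => act c u⁻¹ P = Q) =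
          ((half p).filter fun u => t * u⁻¹ ∈ Subgroup.zpowers g) := by
        apply Finset.filter_congr
        intro u _
        rw [← ht, act_act]
        exact hstabQ _
      rw [h3, count_coset t g]
      have h4 : (g : ZMod p).val = q % p := by rw [hgq, ZMod.val_natCast]
      rw [h4]
      norm_cast
      congr 1
      apply Finset.filter_congr
      intro s _
      rw [Nat.mul_mod b ((q % p) ^ s), ← Nat.pow_mod, ← Nat.mul_mod]
    · -- P not above q
      have h1 : P.valuation C (jacobiSum χ χ) ≤ 1 := val_int_le P hJint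
      have h2 : P.valuation C (jacobiSum χ⁻¹ χ⁻¹) ≤ 1 := val_int_le P hJint'
      have h3 : P.valuation C (jacobiSum χ χ) * P.valuation C (jacobiSum χ⁻¹ χ⁻¹) = 1 := by
        rw [← map_mul, hJJ, hcard]
        push_cast
        rw [map_pow, val_nat_eq_one P hqP, one_pow]
      have h4 : P.valuation C (jacobiSum χ χ) = 1 := by
        apply le_antisymm h1
        calc (1 : WithZero (Multiplicative ℤ)) =
            P.valuation C (jacobiSum χ χ) * P.valuation C (jacobiSum χ⁻¹ χ⁻¹) := h3.symm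
          _ ≤ P.valuation C (jacobiSum χ χ) * 1 := mul_le_mul_right h2 _
          _ = _ := mul_one _
      have h5 : ((half p).filter fun t => act c t⁻¹ P = Q) = ∅ := by
        apply Finset.filter_eq_empty_iff.mpr
        intro t _ h6
        apply hqP
        rw [← h6, mem_act, map_natCast] at hqQ
        exact hqQ
      rw [h4, h5]
      simp

theorem t_JAC (hJN : S_JN) (hBR : S_BR) (hST : S_STAB) : S_JAC := by
  classical
  intro p _ hp2 C _ _ c Q hpQ
  have hfin : Finite (𝓞 C ⧸ Q.asIdeal) := Ideal.finiteQuotientOfFreeOfNeBot _ Q.ne_bot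
  obtain ⟨E, hE1, hE2, q, hq1, hq2, hq3, hcard⟩ : ∃ (E : Type) (_ : Field E) (_ : Fintype E) (q : ℕ)
      (_ : Fact q.Prime) (_ : CharP E q), ((q : ℕ) : 𝓞 C) ∈ Q.asIdeal ∧
      Nat.card (𝓞 C ⧸ Q.asIdeal) = Fintype.card E := by
    let hf : Field (𝓞 C ⧸ Q.asIdeal) := Ideal.Quotient.field Q.asIdeal
    let hft : Fintype (𝓞 C ⧸ Q.asIdeal) := Fintype.ofFinite _
    refine ⟨𝓞 C ⧸ Q.asIdeal, hf, hft, ringChar (𝓞 C ⧸ Q.asIdeal),
      ⟨CharP.char_is_prime (𝓞 C ⧸ Q.asIdeal) _⟩, ringChar.charP _, ?_, Nat.card_eq_fintype_card⟩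
    rw [← Ideal.Quotient.eq_zero_iff_mem, map_natCast]
    exact CharP.cast_eq_zero (𝓞 C ⧸ Q.asIdeal) _
  exact jac_core hJN hBR hST hp2 c Q hpQ E q hq3 hcard

end Pool.Agent.Y125.WQ
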