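import Pool.Agent.Y125.WQ.Base

set_option autoImplicit false

/-!
Project WQ (helper546), job WQ-UNIT: the Stickelberger relation (`S_JAC → S_UNIT`).
-/

namespace Pool.Agent.Y125.WQ

open NumberField IsDedekindDomain HeightOneSpectrum
open Pool.Agent.Y546.WQ
open WithZero (exp)

variable {p : ℕ} [Fact p.Prime] {C : Type} [Field C] [NumberField C]

lemma exp_sum {ι : Type*} (s : Finset ι) (f : ι → ℤ) :
    exp (∑ i ∈ s, f i) = ∏ i ∈ s, exp (f i) := by
  classical
  induction s using Finset.induction_on with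
  | empty => simp
  | insert a s ha ih => rw [Finset.sum_insert ha, Finset.prod_insert ha, WithZero.exp_add, ih]

/-- the valuations of `th c x` -/
lemma val_th (c : Cyc p C) {x : C} {m : HeightOneSpectrum (𝓞 C) → ℤ}
    (hm : ∀ P, P.valuation C x = exp ((p : ℤ) * m P)) (P : HeightOneSpectrum (𝓞 C)) :
    P.valuation C (th c x) = exp ((p : ℤ) * ∑ t ∈ half p, m (act c t⁻¹ P)) := by
  unfold th
  rw [map_prod, Finset.mul_sum, exp_sum]
  refine Finset.prod_congr rfl fun t _ => ?_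
  rw [← val_act, hm]

/-- the square of the absolute value of `th c x` -/
lemma norm_th (c : Cyc p C) (hp2 : p ≠ 2) (φ : C →+* ℂ) (x : C) :
    φ (th c x) * (starRingEnd ℂ) (φ (th c x)) = ∏ t : (ZMod p)ˣ, φ (c.σ t x) := by
  have hp : p.Prime := Fact.out
  rw [conj_eq c]
  unfold th
  rw [map_prod, map_prod, map_prod]
  -- split the units
  have h1 : ∏ t : (ZMod p)ˣ, φ (c.σ t x) = ∏ t : (ZMod p)ˣ, φ (c.σ t⁻¹ x) :=
    (Fintype.prod_equiv (Equiv.inv _) _ _ fun t => by simp).symm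
  have h2 : ∏ t ∈ half p, φ (c.σ (-1) (c.σ t⁻¹ x)) =
      ∏ t ∈ Finset.univ.filter (fun t : (ZMod p)ˣ => ¬ p < 2 * (t : ZMod p).val),
        φ (c.σ t⁻¹ x) := by
    refine Finset.prod_nbij' (fun t => -t) (fun t => -t) ?_ ?_ ?_ ?_ ?_
    · intro t ht
      simp only [half, Finset.mem_filter, Finset.mem_univ, true_and] at ht ⊢
      rw [Units.val_neg, ZMod.neg_val]
      have : (t : ZMod p) ≠ 0 := t.ne_zero
      rw [if_neg this]
      omega
    · intro t ht
      simp only [half, Finset.mem_filter, Finset.mem_univ, true_and] at ht ⊢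
      rw [Units.val_neg, ZMod.neg_val]
      have : (t : ZMod p) ≠ 0 := t.ne_zero
      rw [if_neg this]
      have h3 : (t : ZMod p).val < p := ZMod.val_lt _
      have h4 : 2 * (t : ZMod p).val ≠ p := by
        intro h5
        exact hp2 ((Nat.prime_dvd_prime_iff_eq Nat.prime_two hp).mp ⟨_, h5.symm⟩).symm
      omega
    · intro t _; simp
    · intro t _; simp
    · intro t _
      congr 1
      have : (-t)⁻¹ = (-1) * t⁻¹ := by
        rw [inv_neg, neg_mul, one_mul]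
      rw [this, map_mul]
      rfl
  rw [h1, h2]
  unfold half
  exact Finset.prod_filter_mul_prod_filter_not _ _ _

/-- the absolute values of all the conjugates of `th c x` agree -/
lemma norm_th_eq (c : Cyc p C) (hp2 : p ≠ 2) (φ ψ : C →+* ℂ) (x : C) :
    ‖φ (th c x)‖ ^ 2 = ‖ψ (th c x)‖ ^ 2 := by
  have h1 := norm_th c hp2 φ x
  have h2 := norm_th c hp2 ψ x
  obtain ⟨s, hs⟩ := exists_sigma c φ ψ
  have h3 : ∏ t : (ZMod p)ˣ, ψ (c.σ t x) = ∏ t : (ZMod p)ˣ, φ (c.σ t x) := by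
    rw [hs]
    refine Fintype.prod_equiv (Equiv.mulLeft s) _ _ fun t => ?_
    show φ (c.σ s (c.σ t x)) = φ (c.σ (s * t) x)
    rw [map_mul]
    rfl
  rw [h3, ← h1, Complex.mul_conj, Complex.mul_conj] at h2
  rw [Complex.normSq_eq_norm_sq, Complex.normSq_eq_norm_sq] at h2
  exact_mod_cast h2.symm

omit [Fact p.Prime] in
/-- an element whose valuations and absolute values are all trivial is, up to sign, a power of
`z` -/
lemma root_of_unity (c : Cyc p C) {u : C} (hu0 : u ≠ 0)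
    (hu : ∀ P : HeightOneSpectrum (𝓞 C), P.valuation C u = 1)
    (harch : ∀ φ ψ : C →+* ℂ, ‖φ u‖ ^ 2 = ‖ψ u‖ ^ 2) : ∃ i : ℕ, u = c.z ^ i ∨ u = -c.z ^ i := by
  obtain ⟨a, ha⟩ := mem_integers_of_valuation_le_one C u fun P => (hu P).le
  obtain ⟨b, hb⟩ := mem_integers_of_valuation_le_one C u⁻¹ fun P => by
    rw [map_inv₀, hu, inv_one]
  have hab : a * b = 1 := by
    apply RingOfIntegers.coe_injective
    rw [map_mul, map_one, ha, hb, mul_inv_cancel₀ hu0]
  have hunit : IsUnit a := IsUnit.of_mul_eq_one b hab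
  have hnorm : |Algebra.norm ℚ u| = 1 := by
    have h1 := NumberField.isUnit_iff_norm.mp hunit
    rw [RingOfIntegers.coe_norm] at h1
    rw [← ha]
    exact_mod_cast h1
  -- the product of all the absolute values
  have hprod : ∏ φ : C →ₐ[ℚ] ℂ, ‖φ u‖ = 1 := by
    have h1 := Algebra.norm_eq_prod_embeddings ℚ ℂ u
    have h2 : ‖algebraMap ℚ ℂ (Algebra.norm ℚ u)‖ = 1 := by
      rw [eq_ratCast, Complex.norm_ratCast]
      exact_mod_cast hnorm
    rw [h1, norm_prod] at h2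
    exact h2
  have hone : ∀ φ : C →+* ℂ, ‖φ u‖ = 1 := by
    intro φ
    have h1 : ∀ ψ : C →ₐ[ℚ] ℂ, ‖ψ u‖ = ‖φ u‖ := by
      intro ψ
      have h2 := harch (ψ : C →+* ℂ) φ
      exact (pow_left_inj₀ (norm_nonneg _) (norm_nonneg _) two_ne_zero).mp h2
    rw [Finset.prod_congr rfl (fun ψ _ => h1 ψ), Finset.prod_const] at hprod
    have h3 : (Finset.univ : Finset (C →ₐ[ℚ] ℂ)).card ≠ 0 := by
      have : Nonempty (C →ₐ[ℚ] ℂ) := ⟨φ.toRatAlgHom⟩
      rw [Finset.card_univ]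
      exact Fintype.card_ne_zero
    exact (pow_eq_one_iff_of_nonneg (norm_nonneg _) h3).mp hprod
  have hint : IsIntegral ℤ u := by
    rw [← ha]; exact a.isIntegral_coe
  obtain ⟨n, hn, hun⟩ := NumberField.Embeddings.pow_eq_one_of_norm_eq_one C ℂ hint hone
  exact c.tors u (isOfFinOrder_iff_pow_eq_one.mpr ⟨n, hn, hun⟩)

/-- **UNIT** -/
theorem t_UNIT (hJ : S_JAC) : S_UNIT := by
  classical
  intro p _ hp2 C _ _ c x hx hval hp1
  have hp : p.Prime := Fact.out
  choose m hm using hval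
  have hmp : ∀ P : HeightOneSpectrum (𝓞 C), ((p : ℕ) : 𝓞 C) ∈ P.asIdeal → m P = 0 := by
    intro P hP
    have h1 := hp1 P hP
    rw [hm P, WithZero.exp_eq_one] at h1
    rcases mul_eq_zero.mp h1 with h2 | h2
    · exact absurd (by exact_mod_cast h2) hp.ne_zero
    · exact h2
  -- the support is finite
  have hfin : {P : HeightOneSpectrum (𝓞 C) | m P ≠ 0}.Finite := by
    apply ((HeightOneSpectrum.Support.finite (𝓞 C) x).union
      (HeightOneSpectrum.Support.finite (𝓞 C) x⁻¹)).subset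
    intro P hP
    rcases lt_or_gt_of_ne (show m P ≠ 0 from hP) with h | h
    · right
      show 1 < P.valuation C x⁻¹
      rw [map_inv₀, hm P, ← WithZero.exp_neg, ← WithZero.exp_zero, WithZero.exp_lt_exp]
      have : (0 : ℤ) < p := by exact_mod_cast hp.pos
      nlinarith
    · left
      show 1 < P.valuation C x
      rw [hm P, ← WithZero.exp_zero, WithZero.exp_lt_exp]
      have : (0 : ℤ) < p := by exact_mod_cast hp.pos
      positivity
  set S := hfin.toFinset with hS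
  have hSm : ∀ P, P ∈ S ↔ m P ≠ 0 := fun P => by rw [hS, Set.Finite.mem_toFinset]; rfl
  have hex : ∀ Q : HeightOneSpectrum (𝓞 C), ∃ J : C, m Q ≠ 0 → (J ≠ 0 ∧
      (∃ r : ℝ, 0 < r ∧ ∀ φ : C →+* ℂ, ‖φ J‖ ^ 2 = r) ∧
      ∀ P : HeightOneSpectrum (𝓞 C), P.valuation C J =
        exp (-(((half p).filter fun t => act c t⁻¹ P = Q).card : ℤ))) := by
    intro Q
    by_cases hQ : m Q = 0
    · exact ⟨1, fun h => absurd hQ h⟩
    · obtain ⟨J, h1, h2, h3⟩ := hJ p hp2 C c Q (fun h => hQ (hmp Q h))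
      exact ⟨J, fun _ => ⟨h1, h2, h3⟩⟩
  choose J hJ' using hex
  set γ : C := ∏ Q ∈ S, J Q ^ (-(m Q)) with hγ
  have hγ0 : γ ≠ 0 := by
    rw [hγ]
    exact Finset.prod_ne_zero_iff.mpr fun Q hQ => zpow_ne_zero _ (hJ' Q ((hSm Q).mp hQ)).1
  -- valuations of gamma
  have hγv : ∀ P : HeightOneSpectrum (𝓞 C), P.valuation C γ =
      exp (∑ t ∈ half p, m (act c t⁻¹ P)) := by
    intro P
    rw [hγ, map_prod]
    have h1 : ∀ Q ∈ S, P.valuation C (J Q ^ (-(m Q))) =
        exp (m Q * (((half p).filter fun t => act c t⁻¹ P = Q).card : ℤ)) := by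
      intro Q hQ
      rw [map_zpow₀, (hJ' Q ((hSm Q).mp hQ)).2.2 P, ← WithZero.exp_zsmul]
      congr 1
      rw [smul_eq_mul]; ring
    rw [Finset.prod_congr rfl h1, ← exp_sum]
    congr 1
    have h2 : ∀ Q ∈ S, m Q * (((half p).filter fun t => act c t⁻¹ P = Q).card : ℤ) =
        ∑ t ∈ half p, if act c t⁻¹ P = Q then m Q else 0 := by
      intro Q _
      rw [← Finset.sum_filter, Finset.sum_const, nsmul_eq_mul, mul_comm]
    rw [Finset.sum_congr rfl h2, Finset.sum_comm]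
    refine Finset.sum_congr rfl fun t _ => ?_
    rw [Finset.sum_ite_eq]
    split_ifs with h3
    · rfl
    · rw [hSm] at h3
      push Not at h3
      exact h3.symm
  -- absolute values of gamma
  have hγa : ∀ φ ψ : C →+* ℂ, ‖φ γ‖ ^ 2 = ‖ψ γ‖ ^ 2 := by
    intro φ ψ
    rw [hγ, map_prod, map_prod, norm_prod, norm_prod, ← Finset.prod_pow, ← Finset.prod_pow]
    refine Finset.prod_congr rfl fun Q hQ => ?_
    obtain ⟨r, _, hr⟩ := (hJ' Q ((hSm Q).mp hQ)).2.1
    have h1 : ∀ φ : C →+* ℂ, ‖φ (J Q ^ (-(m Q)))‖ ^ 2 = r ^ (-(m Q)) := by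
      intro φ
      rw [map_zpow₀, norm_zpow, ← hr φ, ← zpow_natCast, ← zpow_natCast, ← zpow_mul, ← zpow_mul,
        mul_comm]
    rw [h1, h1]
  have hth0 : th c x ≠ 0 := by
    unfold th
    exact Finset.prod_ne_zero_iff.mpr fun t _ => by
      rw [Ne, map_eq_zero]; exact hx
  set u : C := th c x / γ ^ p with hu
  have hu0 : u ≠ 0 := div_ne_zero hth0 (pow_ne_zero _ hγ0)
  have huv : ∀ P : HeightOneSpectrum (𝓞 C), P.valuation C u = 1 := by
    intro P
    rw [hu, map_div₀, map_pow, hγv, val_th c hm P, ← WithZero.exp_nsmul, ← WithZero.exp_sub]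
    rw [nsmul_eq_mul, sub_self, WithZero.exp_zero]
  obtain ⟨i, hi⟩ := root_of_unity c hu0 huv (fun φ ψ => by
    rw [hu, map_div₀, map_div₀, norm_div, norm_div, div_pow, div_pow, norm_th_eq c hp2 φ ψ x,
      map_pow, map_pow, norm_pow, norm_pow, ← pow_mul, ← pow_mul, mul_comm p 2, pow_mul, pow_mul,
      hγa φ ψ])
  have hmain : th c x = u * γ ^ p := by
    rw [hu, div_mul_cancel₀ _ (pow_ne_zero _ hγ0)]
  rcases hi with hi | hi
  · exact ⟨γ, hγ0, i, by rw [hmain, hi]⟩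
  · refine ⟨-γ, neg_ne_zero.mpr hγ0, i, ?_⟩
    rw [hmain, hi, Odd.neg_pow (hp.odd_of_ne_two hp2)]
    ring

end Pool.Agent.Y125.WQ
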